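import Pool.Agent.helper17.EXC.Spec

set_option autoImplicit false

open Finset

namespace Pool.Agent.EXC

theorem WUQ_aux {n : ℕ} (C : Matrix (Fin n) (Fin n) ℤ) [IsC C] {F : Type} [Field F] (β : Fin n → ℤ) (hβ : ip C β β = 2)
    (b : F) (v d : Lm C F) (h0 : fm C (b • E C β) v = 0) (hd : d = br C (b • E C β) v) :
    d.1 = 0 ∧ ∀ ρ, ip C ρ ρ = 2 → cf d ρ ≠ 0 → 1 ≤ ip C ρ β := by
  rw [fm_smul_left, fm_E C hβ] at h0
  rw [br_smul_left] at hd
  obtain ⟨h1, h2⟩ := br_E C hβ v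
  constructor
  · rw [hd, Prod.smul_fst, h1, smul_smul, mul_neg, h0, neg_zero, zero_smul]
  · intro ρ hρ hne
    rw [hd, cf_smul, h2 ρ hρ] at hne
    by_cases e : ρ = β
    · rw [e, hβ]
      norm_num
    · rw [if_neg e, neg_zero, zero_add] at hne
      have h3 : cf v (ρ - β) ≠ 0 := fun h => hne (by rw [h, mul_zero, mul_zero])
      have h4 : ip C (ρ - β) (ρ - β) = 2 := by
        by_contra h5
        exact h3 (cf_eq_zero C v h5)
      rw [(sub_root_iff hρ hβ).1 h4]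

theorem WUQ : WUQ_stmt := by
  intro n C _ F _ β γ hβ hγ hβγ b c v w d h1 h2 h3 h4
  obtain ⟨a1, a2⟩ := WUQ_aux C β hβ b v d h1 h3
  obtain ⟨_, b2⟩ := WUQ_aux C γ hγ c w d h2 h4
  have hs : ip C (β + γ) (β + γ) = 2 := (add_root_iff hβ hγ).2 hβγ
  refine ⟨cf d (β + γ), ?_⟩
  apply Lm_ext C
  · rw [a1, Prod.smul_fst, E_fst, smul_zero]
  · intro ρ hρ
    rw [cf_smul, cf_E C hs]
    by_cases e : ρ = β + γ
    · rw [if_pos e, mul_one, e]
    · rw [if_neg e, mul_zero]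
      by_contra hne
      apply e
      have g1 := a2 ρ hρ hne
      have g2 := b2 ρ hρ hne
      have g3 := (ip_abs_le hρ hs).2
      have g4 : ip C ρ (β + γ) = ip C ρ β + ip C ρ γ := ip_add_right C ρ β γ
      exact eq_of_ip_eq_two hρ hs (by omega)

end Pool.Agent.EXC
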