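import Pool.Agent.helper17.EXC.Spec

set_option autoImplicit false

open Finset

namespace Pool.Agent.EXC

theorem RPX_smul {n : ℕ} (C : Matrix (Fin n) (Fin n) ℤ) [IsC C] {F : Type} [Field F] (a : Lm C F) (c t : F)
    (h : Lm C F ≃ₗ[F] Lm C F) (hx : IsX C (c • a) t h) : IsX C a (c * t) h := by
  intro v
  rw [hx v]
  unfold xe
  rw [br_smul_left, fm_smul_left, smul_smul, smul_smul]
  have e1 : t * c = c * t := mul_comm t c
  have e2 : t ^ 2 * (c * fm C a v) * c = (c * t) ^ 2 * fm C a v := by ring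
  rw [e1, e2]

theorem RPX (hPLN : PLN_stmt) (hCNN : CNN_stmt) (hIMX : IMX_stmt) (hIMT : IMT_stmt) (hTPF : TPF_stmt) (hPCL : PCL_stmt) (hFIX : FIX_stmt) (hEXF : EXF_stmt) (hUNQ : UNQ_stmt) (hINV : INV_stmt) (hTSY : TSY_stmt) (hNBR : NBR_stmt) : RPX_stmt := by
  intro n C _ F _ _ j0 θ δ hE x hx hx1
  by_contra hcon
  push Not at hcon
  have hnb := (hNBR n C j0 θ δ hE).1
  have hTP := hTPF n C F θ hE.th2 hnb
  obtain ⟨_, _, hX, _⟩ := hEXF n C F hnb
  obtain ⟨i1, i2, i3, i4⟩ := hIMX n C F j0 θ δ hE x hx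
  let P : Lm C F → Prop := fun a => ∀ h : EG C F, (∃ t, IsX C a t (h : Lm C F ≃ₗ[F] Lm C F)) → x h = h
  have key : ∀ a a' : Lm C F, ∀ m : ℤ, Ex C a → Ex C a' → Im C x a a' → Tp C θ a a' m → m ≠ -2 → P a :=
    fun a a' m h1 h2 h3 h4 h5 h h6 => hcon a a' m h1 h2 h3 h4 h5 h h6
  have hself : ∀ a : Lm C F, P a → Im C x a a := by
    intro a ha h
    constructor
    · intro h1
      rw [ha h h1]
      exact h1
    · intro h1
      have h2 : x (x h) = x h := ha (x h) h1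
      have h3 : x h = h := x.injective h2
      rw [h3] at h1
      exact h1
  obtain ⟨a₀, a₀', m₀, e1, e2, e3, e4, e5⟩ := hPLN n C F j0 θ δ hE x hx
  have hP0 : P a₀ := key a₀ a₀' m₀ e1 e2 e3 e4 e5
  have hstep : ∀ a b, Tp C θ a b 1 → P a → P b := by
    intro a b hab ha
    obtain ⟨t1, t2, _, _, _, _, t7, _⟩ := hTP a b 1 hab
    obtain ⟨v, hv0, hv⟩ := t7 rfl
    obtain ⟨b', hb', him⟩ := i1 b t2
    have hab' := hIMT n C F j0 θ δ hE x hx a b a b' t1 hb' (hself a ha) him hab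
    obtain ⟨_, _, _, _, _, _, s7, _⟩ := hTP a b' 1 hab'
    obtain ⟨w, hw0, hw⟩ := s7 rfl
    have hXa := (hX a t1).1
    have hfm : fm C b b' = 0 := by
      rw [hv, hw, hXa.inv, hXa.sq, hw0, mul_zero, zero_smul, fm_zero_right, neg_zero]
    obtain ⟨m, _, _, hm⟩ := hPCL n C F j0 θ δ hE b b' t2 hb'
    have hne : m ≠ -2 := by
      intro h
      have := ((hTP b b' m hm).2.2.2.2.2.1).2 h
      exact this hfm
    exact key b b' m t2 hb' him hm hne
  have hall := hCNN n C F j0 θ δ hE P (by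
    intro a c hc ha h ht
    obtain ⟨t, ht⟩ := ht
    exact ha h ⟨c * t, RPX_smul C a c t _ ht⟩) hstep (fun a b hab hb => hstep b a (hTSY n C F j0 θ δ hE a b 1 hab) hb)
    ⟨a₀, e1, hP0⟩
  exact hx1 ((hFIX n C F j0 θ δ hE).1 x fun a ha => hself a (hall a ha))

end Pool.Agent.EXC
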