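import Pool.Agent.helper32.EXC.Spec11

/-! Row SGL of project EXC, r = 11 (MP_561ff4_al). -/

set_option autoImplicit false

open Finset

namespace Pool.Agent.EXC

theorem T11SGL (hEXF : EXF_stmt) (hCOL : COL_stmt) (hACT : ACT_stmt) (hXAU : XAU_stmt) : T11SGL_stmt := by
  intro n C _ F _ hN c σ hc hσ
  obtain ⟨hau, hexE, hex, -⟩ := hEXF n C F hN
  obtain ⟨g, hg, α, hα, κ, hκ, rfl⟩ := hc
  obtain ⟨β0, hβ0, hαβ0⟩ := hN α hα
  set β : Fin n → ℤ := -β0 with hβdef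
  have hβ : ip C β β = 2 := neg_root C hβ0
  have hαβ : ip C α β = 1 := by rw [hβdef, ip_neg_right, hαβ0]; norm_num
  have hnβ : ip C (-β) (-β) = 2 := neg_root C hβ
  have hγ : ip C (α - β) (α - β) = 2 := (sub_root_iff hα hβ).2 hαβ
  have hγβ : ip C (α - β) β = -1 := by rw [ip_sub_left, hαβ, hβ]; norm_num
  have hne : (-β : Fin n → ℤ) ≠ -α := by
    intro h
    have h1 : β = α := neg_injective h
    rw [h1, hα] at hαβ
    norm_num at hαβ
  -- the element `κ E α + E β`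
  obtain ⟨h, hh, hhX⟩ := (hex _ (hexE (α - β) hγ)).2.2.2.2.1 (κ * (sg C (α - β) β : F))
  have hhβ : h (E C β) = κ • (E C α : Lm C F) + (1 : F) • E C β := by
    rw [hhX, (hACT n C F (α - β) _ hγ).2.1 β hβ hγβ, mul_assoc, sg_sq, mul_one, sub_add_cancel, one_smul]
    abel
  have hauG := hau g hg
  have hXβ := (hex _ (hexE β hβ)).1
  have hXα := (hex _ (hexE α hα)).1
  have hExs : Ex C (κ • (E C α : Lm C F) + (1 : F) • E C β) := by
    rw [← hhβ]
    exact (hex _ (hexE β hβ)).2.2.1 h hh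
  have hXs := (hex _ hExs).1
  refine ⟨g (E C β), σ • g (E C (-β)), g (κ • (E C α : Lm C F) + (1 : F) • E C β), (hex _ (hexE β hβ)).2.2.1 g hg,
    (hex _ ((hex _ (hexE (-β) hnβ)).2.2.1 g hg)).2.2.2.1 σ hσ, (hex _ hExs).2.2.1 g hg, ?_, ?_, ?_⟩
  · rw [fm_smul_right, hauG.fm, fm_E_E C hβ hnβ, if_pos rfl, mul_one]
  · rw [fm_smul_right, hauG.fm, fm_add_left, fm_smul_left, fm_smul_left, fm_E_E C hα hnβ, fm_E_E C hβ hnβ, if_neg hne,
      if_pos rfl]
    ring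
  · intro v
    obtain ⟨w, rfl⟩ := g.surjective v
    have t1 := (hXAU n C F _ hXα).2.2.1 g hauG
    have t2 := (hXAU n C F _ hXβ).2.2.1 g hauG
    have t3 := (hXAU n C F _ hXs).2.2.1 g hauG
    have t4 := (hXAU n C F _ t1.1).2.2.2 κ
    rw [t4.2 1, mul_one, ← t2.2, ← t1.2, ← t3.2]
    congr 1
    have := (hCOL n C F α β hα hβ).1 hαβ
    rw [this.1 κ 1 1 w, mul_one, mul_one]

end Pool.Agent.EXC
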